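import Pool.Agent.TH935.TG4

/-!
# The binary Goldbach problem in totient form with one of the two primes from arbitrary sets of primes, for
almost all vectors from products of thin families
-/

set_option autoImplicit false

namespace Pool.Agent.Results.MP_967f73_nt.ArbitrarySummands

open Finset

/-- `x` is an integral solution of the system `φ (n - x) + 1 = n - x`, `φ (n + x) + 1 = n + x`. -/
def IsSol (n x : ℤ) : Prop :=
  1 ≤ n - x ∧ 1 ≤ n + x ∧ (Nat.totient (n - x).toNat : ℤ) + 1 = n - x ∧ (Nat.totient (n + x).toNat : ℤ) + 1 = n + x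

open Classical in
/-- The number of the elements `p` of `M` with `y₁ < p ≤ y₂` such that `x = n i - p` is a solution of the
system for `n i`, for every `i`. -/
noncomputable def solCount {k : ℕ} (n : Fin k → ℤ) (M : Set ℕ) (y₁ y₂ : ℕ) : ℕ :=
  ((Ioc y₁ y₂).filter (fun p : ℕ => p ∈ M ∧ ∀ i, IsSol (n i) (n i - p))).card

open Classical in
/-- The number of the elements `p` of `M` with `y₁ < p ≤ y₂` such that no `2 n i - p` is divisible by a
prime `q ≤ z`. -/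
noncomputable def roughCount {k : ℕ} (n : Fin k → ℤ) (z : ℕ) (M : Set ℕ) (y₁ y₂ : ℕ) : ℕ :=
  ((Ioc y₁ y₂).filter (fun p : ℕ => p ∈ M ∧ ∀ i, ∀ q : ℕ, q.Prime → q ≤ z → ¬ (q : ℤ) ∣ 2 * n i - p)).card

/-- `∏_{q ≤ z} (1 - 1 / q)`, the density of the integers without prime factors `≤ z`. -/
noncomputable def V (z : ℕ) : ℝ := ∏ q ∈ (Icc 1 z).filter Nat.Prime, (1 - 1 / (q : ℝ))

/-- For every one of the sets `𝒬 l` and every window `y₁ < p ≤ y₂` with `y₂ ≤ 2 n i` for all `i` which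
contains at least `N / log ^ K N` elements `p` of `𝒬 l` such that the numbers `2 n i - p` have no prime factor
`≤ z`, the proportion of these elements `p` for which all `x = n i - p` solve the system for `n i` is
`1 / (V z log N) ^ k`, up to a relative error of at most `ε`. -/
def Holds (ε : ℝ) (K N z : ℕ) {k m : ℕ} (𝒬 : Fin m → Set ℕ) (n : Fin k → ℤ) : Prop :=
  ∀ l : Fin m, ∀ y₁ y₂ : ℕ, y₁ ≤ y₂ → (∀ i, (y₂ : ℤ) ≤ 2 * n i) →
    (N : ℝ) / Real.log N ^ K ≤ roughCount n z (𝒬 l) y₁ y₂ →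
    |(solCount n (𝒬 l) y₁ y₂ : ℝ) - roughCount n z (𝒬 l) y₁ y₂ / (V z * Real.log N) ^ k| ≤
      ε * (roughCount n z (𝒬 l) y₁ y₂ / (V z * Real.log N) ^ k)

/-- The additive energy of order `h` of a finite family of integers `v j`: the number of solutions of
`v (x 1) + ... + v (x h) = v (y 1) + ... + v (y h)`. -/
noncomputable def energy (h : ℕ) {ι : Type} [Fintype ι] (v : ι → ℤ) : ℕ :=
  Nat.card {q : (Fin h → ι) × (Fin h → ι) // ∑ j, v (q.1 j) = ∑ j, v (q.2 j)}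

/-- The number of representations of `t` as `v (x 1) + ... + v (x h)`. -/
noncomputable def reps (h : ℕ) {ι : Type} [Fintype ι] (v : ι → ℤ) (t : ℤ) : ℕ :=
  Nat.card {x : Fin h → ι // ∑ j, v (x j) = t}

open Classical in
/-- The number of the vectors `n = (v 1 (q 1), ..., v k (q k))`, `q i ∈ ι i`, for which `Holds` fails. -/
noncomputable def exceptions (ε : ℝ) (K N z : ℕ) {k m : ℕ} (𝒬 : Fin m → Set ℕ) {ι : Fin k → Type}
    [∀ i, Fintype (ι i)] (v : ∀ i, ι i → ℤ) : ℕ :=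
  (univ.filter (fun q : ∀ i, ι i => ¬ Holds ε K N z 𝒬 (fun i => v i (q i)))).card

open Pool.Agent.TH935.TG
open Pool.Agent.H373R2.T7 (pz mem_pz Vz)

lemma tot (m : ℕ) (hm : 1 ≤ m) : (Nat.totient m : ℤ) + 1 = m ↔ m.Prime := by
  have h1 := Nat.totient_eq_iff_prime (p := m) hm
  rw [← h1]
  omega

lemma isSol_iff (n : ℤ) (p : ℕ) (hp : p.Prime) (h : (p : ℤ) ≤ 2 * n) :
    IsSol n (n - p) ↔ ((-1) * (p : ℤ) + 2 * n).natAbs.Prime := by
  have e1 : n - (n - p) = p := by ring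
  have e2 : n + (n - p) = 2 * n - p := by ring
  obtain ⟨r, hr⟩ : ∃ r : ℕ, 2 * n - p = r := ⟨(2 * n - p).toNat, by omega⟩
  have e3 : ((-1) * (p : ℤ) + 2 * n) = r := by rw [← hr]; ring
  unfold IsSol
  rw [e1, e2, e3, hr, Int.natAbs_natCast, Int.toNat_natCast, Int.toNat_natCast]
  constructor
  · rintro ⟨_, h2, _, h4⟩
    exact (tot r (by exact_mod_cast h2)).1 h4
  · intro h5
    have h6 := hp.one_lt
    have h7 := h5.one_lt
    exact ⟨by exact_mod_cast h6.le, by exact_mod_cast h7.le, (tot p h6.le).2 hp, (tot r h7.le).2 h5⟩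

open Classical in
lemma sol_eq {k : ℕ} (n : Fin k → ℤ) (M : Set ℕ) (hM : ∀ p ∈ M, p.Prime) (Y y₁ y₂ : ℕ) (hY : y₂ ≤ Y)
    (hn : ∀ i, (y₂ : ℤ) ≤ 2 * n i) :
    solCount n M y₁ y₂ = cnM (fun _ => -1) (fun i => 2 * n i) (win ((Ioc 0 Y).filter (· ∈ M)) y₁ y₂) := by
  unfold solCount cnM win
  rw [filter_filter, filter_filter]
  congr 1
  ext p
  rw [mem_filter, mem_filter, mem_Ioc, mem_Ioc]
  constructor
  · rintro ⟨⟨h1, h2⟩, h3, h4⟩
    refine ⟨⟨by omega, by omega⟩, h3, ⟨h1, h2⟩, fun i => ?_⟩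
    exact (isSol_iff (n i) p (hM p h3) (le_trans (by exact_mod_cast h2) (hn i))).1 (h4 i)
  · rintro ⟨_, h3, ⟨h1, h2⟩, h4⟩
    refine ⟨⟨h1, h2⟩, h3, fun i => ?_⟩
    exact (isSol_iff (n i) p (hM p h3) (le_trans (by exact_mod_cast h2) (hn i))).2 (h4 i)

open Classical in
lemma rough_eq {k : ℕ} (n : Fin k → ℤ) (z : ℕ) (M : Set ℕ) (Y y₁ y₂ : ℕ) (hY : y₂ ≤ Y) :
    roughCount n z M y₁ y₂ = rgM (fun _ => -1) (fun i => 2 * n i) z (win ((Ioc 0 Y).filter (· ∈ M)) y₁ y₂) := by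
  unfold roughCount rgM win
  rw [filter_filter, filter_filter]
  congr 1
  ext p
  rw [mem_filter, mem_filter, mem_Ioc, mem_Ioc]
  have e1 : ∀ i, (-1) * (p : ℤ) + 2 * n i = 2 * n i - p := fun i => by ring
  simp only [e1]
  constructor
  · rintro ⟨⟨h1, h2⟩, h3, h4⟩
    exact ⟨⟨by omega, by omega⟩, h3, ⟨h1, h2⟩, fun i q hq => h4 i q (mem_pz.1 hq).2 (mem_pz.1 hq).1⟩
  · rintro ⟨_, h3, ⟨h1, h2⟩, h4⟩
    exact ⟨⟨h1, h2⟩, h3, fun i q hq1 hq2 => h4 i q (mem_pz.2 ⟨hq2, hq1⟩)⟩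

lemma V_eq (z : ℕ) : V z = Vz z := rfl

open Classical in
lemma holds_of (ε : ℝ) (K B N z : ℕ) {k m : ℕ} (hk : 1 ≤ k) (𝒬 : Fin m → Set ℕ) (h𝒬 : ∀ l, ∀ p ∈ 𝒬 l, p.Prime)
    (n : Fin k → ℤ) (hn : ∀ i, |n i| ≤ B * N)
    (h : HB ε K 0 (2 * B) N z (fun l : Fin m => (Ioc 0 (2 * B * N)).filter (· ∈ 𝒬 l)) (fun i => 2 * n i)) :
    Holds ε K N z 𝒬 n := by
  intro l y₁ y₂ h12 hy2 hR
  have hy : y₂ ≤ 2 * B * N := by
    have h1 := hy2 ⟨0, hk⟩
    have h2 := (abs_le.1 (hn ⟨0, hk⟩)).2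
    have h3 : (y₂ : ℤ) ≤ 2 * B * N := by nlinarith
    exact_mod_cast h3
  have h1 := h (fun _ => -1) (fun _ => by norm_num) (fun _ => by simp) l y₁ y₂ h12 hy
  rw [rough_eq n z (𝒬 l) (2 * B * N) y₁ y₂ hy] at hR ⊢
  rw [sol_eq n (𝒬 l) (h𝒬 l) (2 * B * N) y₁ y₂ hy hy2, V_eq]
  exact h1 hR

lemma energy_two (h : ℕ) {ι : Type} [Fintype ι] (v : ι → ℤ) :
    Pool.Agent.TH935.GF.En h (fun j => 2 * v j) = energy h v := by
  unfold Pool.Agent.TH935.GF.En energy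
  have e : ∀ q : (Fin h → ι) × (Fin h → ι), (∑ j, 2 * v (q.1 j) = ∑ j, 2 * v (q.2 j)) ↔ (∑ j, v (q.1 j) = ∑ j, v (q.2 j)) := by
    intro q
    rw [← mul_sum, ← mul_sum]
    constructor
    · intro h1
      exact mul_left_cancel₀ two_ne_zero h1
    · intro h1
      rw [h1]
  simp only [e]

theorem first (k h B C T U K : ℕ) (hk : 1 ≤ k) (ε : ℝ) (hε : 0 < ε) :
    ∃ E₀ : ℕ, ∀ E : ℕ, E₀ ≤ E → ∃ N₀ : ℕ, ∀ N : ℕ, N₀ ≤ N →
      ∀ m : ℕ, (m : ℝ) ≤ Real.log N ^ T → ∀ 𝒬 : Fin m → Set ℕ, (∀ l, ∀ p ∈ 𝒬 l, p.Prime) →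
      ∀ (ι : Fin k → Type) [∀ i, Fintype (ι i)] (v : ∀ i, ι i → ℤ),
      (∀ i j, |v i j| ≤ B * N) →
      (∀ i, (energy h (v i) : ℝ) * N ≤ Real.log N ^ C * (Fintype.card (ι i) : ℝ) ^ (2 * h)) →
      (exceptions ε K N ⌊Real.log N ^ E⌋₊ 𝒬 v : ℝ) ≤ (∏ i, (Fintype.card (ι i) : ℝ)) / Real.log N ^ U := by
  classical
  obtain ⟨E0, h0⟩ := fam_types k h (2 * B) C 0 T U K hk ε hε
  refine ⟨E0, fun E hE => ?_⟩
  obtain ⟨n0, h1⟩ := h0 E hE
  refine ⟨n0, fun N hN m hm 𝒬 h𝒬 ι _ v hv hE' => ?_⟩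
  unfold exceptions
  refine h1 N hN (Fin m) (by rw [Fintype.card_fin]; exact hm) (fun l : Fin m => (Ioc 0 (2 * B * N)).filter (· ∈ 𝒬 l))
    (fun l => filter_subset _ _) ι (fun i j => 2 * v i j) ?_ ?_ _ ?_
  · intro i j
    rw [abs_mul]
    have := hv i j
    push_cast
    have e2 : |(2 : ℤ)| = 2 := rfl
    rw [e2]
    nlinarith
  · intro i
    rw [energy_two]
    exact hE' i
  · intro q hq hH
    rw [mem_filter] at hq
    exact hq.2 (holds_of ε K B N _ hk 𝒬 h𝒬 _ (fun i => hv i (q i)) hH)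

/-- Let `k ≥ 1`, `h`, `B`, `C`, `T`, `U`, `K` and `ε > 0` be fixed, let `E` be large in terms of these, let `N`
be large in terms of all of them, and put `z = ⌊log ^ E N⌋`. Let `𝒬 l`, `l = 1, ..., m`, be arbitrary sets of
primes, `m ≤ log ^ T N`. For `i = 1, ..., k` let `v i j`, `j ∈ ι i`, be an arbitrary finite family of integers
with `|v i j| ≤ B N`.

* Suppose that for every `i` the additive energy of order `h` of the `i`-th family is at most `log ^ C N`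
  times `(#ι i) ^ (2 h) / N` (up to the power of the logarithm this is the least possible energy of a family
  with members in `[-B N, B N]`, and the family may have as few as `N ^ (1 / h)` members). Then for all
  vectors `(n 1, ..., n k)`, `n i` from the `i`-th family, with at most `(∏ #ι i) / log ^ U N` exceptions,
  the following holds simultaneously for all the sets `𝒬 l` and all windows `(y₁, y₂]` with `y₂ ≤ 2 n i` for
  all `i`: if `R` is the number of the primes `p ∈ 𝒬 l` in the window for which `2 n 1 - p, ..., 2 n k - p`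
  have no prime factor `≤ z`, and `R ≥ N / log ^ K N`, then the number of the primes `p ∈ 𝒬 l` in the window
  for which, for every `i`, `x = n i - p` is a solution of the system `φ (n i - x) + 1 = n i - x`,
  `φ (n i + x) + 1 = n i + x` is `(1 + O(ε)) R / (V z log N) ^ k`, where `V z = ∏_{q ≤ z} (1 - 1 / q)`.
* In particular this holds if for every `i` no integer has more than `log ^ C N` representations as a sum of
  `h` members of the `i`-th family, and `(#ι i) ^ h ≥ N / log ^ C N`. -/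
theorem result (k h B C T U K : ℕ) (hk : 1 ≤ k) (ε : ℝ) (hε : 0 < ε) :
    (∃ E₀ : ℕ, ∀ E : ℕ, E₀ ≤ E → ∃ N₀ : ℕ, ∀ N : ℕ, N₀ ≤ N →
      ∀ m : ℕ, (m : ℝ) ≤ Real.log N ^ T → ∀ 𝒬 : Fin m → Set ℕ, (∀ l, ∀ p ∈ 𝒬 l, p.Prime) →
      ∀ (ι : Fin k → Type) [∀ i, Fintype (ι i)] (v : ∀ i, ι i → ℤ),
      (∀ i j, |v i j| ≤ B * N) →
      (∀ i, (energy h (v i) : ℝ) * N ≤ Real.log N ^ C * (Fintype.card (ι i) : ℝ) ^ (2 * h)) →
      (exceptions ε K N ⌊Real.log N ^ E⌋₊ 𝒬 v : ℝ) ≤ (∏ i, (Fintype.card (ι i) : ℝ)) / Real.log N ^ U) ∧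
    (∃ E₀ : ℕ, ∀ E : ℕ, E₀ ≤ E → ∃ N₀ : ℕ, ∀ N : ℕ, N₀ ≤ N →
      ∀ m : ℕ, (m : ℝ) ≤ Real.log N ^ T → ∀ 𝒬 : Fin m → Set ℕ, (∀ l, ∀ p ∈ 𝒬 l, p.Prime) →
      ∀ (ι : Fin k → Type) [∀ i, Fintype (ι i)] (v : ∀ i, ι i → ℤ),
      (∀ i j, |v i j| ≤ B * N) →
      (∀ i t, (reps h (v i) t : ℝ) ≤ Real.log N ^ C) →
      (∀ i, (N : ℝ) ≤ Real.log N ^ C * (Fintype.card (ι i) : ℝ) ^ h) →
      (exceptions ε K N ⌊Real.log N ^ E⌋₊ 𝒬 v : ℝ) ≤ (∏ i, (Fintype.card (ι i) : ℝ)) / Real.log N ^ U) := by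
  refine ⟨first k h B C T U K hk ε hε, ?_⟩
  obtain ⟨E0, hE0⟩ := first k h B (2 * C) T U K hk ε hε
  refine ⟨E0, fun E hE => ?_⟩
  obtain ⟨N₀, h0⟩ := hE0 E hE
  obtain ⟨N₁, h1⟩ := Pool.Agent.H373R2.T7.ev_L' 1
  refine ⟨N₀ + N₁, fun N hN m hm 𝒬 h𝒬 ι _ v hv hJ hx => ?_⟩
  apply h0 N (by omega) m hm 𝒬 h𝒬 ι v hv
  have hL := h1 N (by omega)
  have hL0 : 0 ≤ Real.log N := by linarith
  intro i
  have h2 : (energy h (v i) : ℝ) ≤ (Fintype.card (ι i) : ℝ) ^ h * Real.log N ^ C :=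
    Pool.Agent.TH935.GF.En_le h (v i) _ (hJ i)
  calc (energy h (v i) : ℝ) * N ≤ ((Fintype.card (ι i) : ℝ) ^ h * Real.log N ^ C) * (Real.log N ^ C * (Fintype.card (ι i) : ℝ) ^ h) :=
        mul_le_mul h2 (hx i) (Nat.cast_nonneg _) (by positivity)
    _ = Real.log N ^ (2 * C) * (Fintype.card (ι i) : ℝ) ^ (2 * h) := by ring

end Pool.Agent.Results.MP_967f73_nt.ArbitrarySummands
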