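import Pool.Agent.TH882.S9

/-!
Exact patterns of consecutive primes which serve, all at once, in the Goldbach problem for almost all
vectors of even numbers.
-/

set_option autoImplicit false

open Finset Filter Topology

namespace Pool.Agent.Results.MP_967f73_nt.CommonSummands

/-- No local obstruction: for every prime `l` there is a residue class `n` modulo `l` for which no
`n + a`, `a ∈ A`, and no `N j - n` is divisible by `l`. -/
def LocallyPossible {r : ℕ} (A : Finset ℕ) (N : Fin r → ℕ) : Prop :=
  ∀ l : ℕ, l.Prime → ∃ n : ℤ, (∀ a ∈ A, ¬ (l : ℤ) ∣ n + a) ∧ ∀ j, ¬ (l : ℤ) ∣ (N j : ℤ) - n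

/-- All `n + h`, `h ∈ H`, are prime, and no other integer between `n + min H` and `n + max H` is
prime. -/
def Consecutive (H : Finset ℕ) (n : ℕ) : Prop := (∀ h ∈ H, (n + h).Prime) ∧
  ∀ w, (∃ h ∈ H, h ≤ w) → (∃ h ∈ H, w ≤ h) → (n + w).Prime → w ∈ H

/-- The number of the integers `1 ≤ n ≤ x` for which the `n + h`, `h ∈ H`, are consecutive primes and
all `N j - n` are (positive and) prime. -/
noncomputable def count {r : ℕ} (H : Finset ℕ) (N : Fin r → ℕ) (x : ℕ) : ℕ :=
  {n : ℕ | (1 ≤ n ∧ n ≤ x) ∧ Consecutive H n ∧ ∀ j, n < N j ∧ (N j - n).Prime}.ncard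

/-- The vectors `N` of integers `2 ≤ N j ≤ κ x` without local obstruction, but such that for no subset
`H` of `A` with `m` elements the count is at least `x / (log x) ^ D`. -/
def exceptions (A : Finset ℕ) (m r D κ x : ℕ) : Set (Fin r → ℕ) :=
  {N : Fin r → ℕ | (∀ j, 2 ≤ N j ∧ N j ≤ κ * x) ∧ LocallyPossible A N ∧
    ¬ ∃ H ⊆ A, H.card = m ∧ (x : ℝ) / Real.log x ^ D ≤ (count H N x : ℝ)}

/-- **Patterns of consecutive primes as common summands in Goldbach's problem.** For every `m` there
is `K` such that for every `r` and every set `A` of at least `K` nonnegative integers there is `D` with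
the following property, for every `κ`. For all vectors `N` of integers `2 ≤ N j ≤ κ x`, `j < r`,
without local obstruction, with at most `o(x ^ r)` exceptions, there is a subset `H` of `A` with `m`
elements such that for at least `x / (log x) ^ D` integers `1 ≤ n ≤ x` the `m` numbers `n + h`,
`h ∈ H`, are consecutive primes and moreover all `N j - n` are primes. Thus all `m r` numbers
`N j + h = (n + h) + (N j - n)` are sums of two primes, where `n + h` does not depend on `j` and
`N j - n` does not depend on `h`. -/
theorem result (m : ℕ) : ∃ K : ℕ, ∀ (r : ℕ) (A : Finset ℕ), K ≤ A.card → ∃ D : ℕ, ∀ κ : ℕ,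
    Tendsto (fun x : ℕ => ((exceptions A m r D κ x).ncard : ℝ) / (x : ℝ) ^ r) atTop (𝓝 0) := by
  classical
  obtain ⟨K, hK, hfin⟩ := Pool.Agent.TH882.RS.finG m
  refine ⟨4 * (m + 1) * K, ?_⟩
  intro r A hA
  obtain ⟨A', hA'1, hA'2⟩ := exists_subset_card_eq hA
  set U : Finset ℕ := A'.image (· + 1) with hU
  have hinj1 : Function.Injective (fun a : ℕ => a + 1) := fun a b hab => by simpa using hab
  have hUc : U.card = 4 * (m + 1) * K := by
    rw [hU, card_image_of_injective _ hinj1, hA'2]
  obtain ⟨D, h⟩ := hfin r U hUc (by
    intro u hu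
    rw [hU, mem_image] at hu
    obtain ⟨a, -, rfl⟩ := hu
    omega)
  refine ⟨D, fun κ => ?_⟩
  have hsq : ∀ᶠ x : ℕ in atTop, ((exceptions A m r D κ x).ncard : ℝ) / (x : ℝ) ^ r ≤
      ((Pool.Agent.TH882.RS.ExG U m r D κ x).card : ℝ) / (x : ℝ) ^ r := by
    filter_upwards [eventually_ge_atTop 1] with x hx
    apply div_le_div_of_nonneg_right _ (by positivity)
    apply Nat.cast_le.2
    set f : (Fin r → ℕ) → (Fin r → ℕ) := fun k j => k j - 1 with hf
    have hfinj : Set.InjOn f (exceptions A m r D κ x) := by
      intro a ha b hb hab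
      funext j
      have e1 := congrFun hab j
      have e2 := (ha.1 j).1
      have e3 := (hb.1 j).1
      rw [hf] at e1
      simp only at e1
      omega
    rw [← Set.ncard_image_of_injOn hfinj, ← Set.ncard_coe_finset]
    apply Set.ncard_le_ncard _ (finite_toSet _)
    rintro _ ⟨k, hk, rfl⟩
    unfold exceptions at hk
    rw [Set.mem_setOf_eq] at hk
    obtain ⟨h1, h2, h3⟩ := hk
    unfold Pool.Agent.TH882.RS.ExG
    rw [mem_coe, mem_filter, Fintype.mem_piFinset]
    have hfk : ∀ j, ((f k j : ℕ) : ℤ) = (k j : ℤ) - 1 := by
      intro j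
      have e1 := h1 j
      rw [hf]
      simp only
      rw [Nat.cast_sub (by omega)]
      push_cast
      ring
    refine ⟨?_, ?_, ?_⟩
    · intro j
      rw [mem_Icc]
      have e1 := h1 j
      rw [hf]
      simp only
      omega
    · intro l hl
      obtain ⟨n, hn, hn2⟩ := h2 l hl
      refine ⟨n - 1, ?_, ?_⟩
      · intro u hu
        rw [hU, mem_image] at hu
        obtain ⟨a, ha, rfl⟩ := hu
        have e1 := hn a (hA'1 ha)
        have e2 : n - 1 + ((a + 1 : ℕ) : ℤ) = n + a := by
          push_cast
          ring
        rw [e2]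
        exact e1
      · intro j
        have e1 := hn2 j
        have e2 : ((f k j : ℕ) : ℤ) - (n - 1) = k j - n := by
          rw [hfk j]
          ring
        rw [e2]
        exact e1
    · rintro ⟨H, hH1, hH2, hH3⟩
      apply h3
      set H' : Finset ℕ := A'.filter (fun a => a + 1 ∈ H) with hH'
      have hHH' : H = H'.image (· + 1) := by
        ext u
        rw [mem_image]
        constructor
        · intro hu
          have e1 := hH1 hu
          rw [hU, mem_image] at e1
          obtain ⟨a, ha, rfl⟩ := e1
          exact ⟨a, by rw [hH', mem_filter]; exact ⟨ha, hu⟩, rfl⟩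
        · rintro ⟨a, ha, rfl⟩
          rw [hH', mem_filter] at ha
          exact ha.2
      refine ⟨H', (filter_subset _ _).trans hA'1, ?_, hH3.trans ?_⟩
      · rw [← hH2, hHH', card_image_of_injective _ hinj1]
      · apply Nat.cast_le.2
        unfold count
        rw [← card_image_of_injective _ hinj1, ← Set.ncard_coe_finset]
        apply Set.ncard_le_ncard
        · intro n hn
          rw [mem_coe, mem_image] at hn
          obtain ⟨n', hn', rfl⟩ := hn
          unfold Pool.Agent.TH882.RS.CG at hn'
          rw [mem_filter, mem_Ico] at hn'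
          obtain ⟨e1, ⟨e2, e3⟩, e4⟩ := hn'
          rw [Set.mem_setOf_eq]
          refine ⟨by omega, ⟨?_, ?_⟩, ?_⟩
          · intro a ha
            have e5 := e2 (a + 1) (by rw [hHH']; exact mem_image_of_mem _ ha)
            have e6 : n' + 1 + a = n' + (a + 1) := by ring
            rw [e6]
            exact e5
          · rintro w ⟨a, ha, haw⟩ ⟨c, hc, hwc⟩ hp
            have e6 : n' + (w + 1) = n' + 1 + w := by ring
            have e5 := e3 (w + 1) ⟨a + 1, by rw [hHH']; exact mem_image_of_mem _ ha, by omega⟩
              ⟨c + 1, by rw [hHH']; exact mem_image_of_mem _ hc, by omega⟩ (by rw [e6]; exact hp)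
            rw [hHH', mem_image] at e5
            obtain ⟨w', hw', he⟩ := e5
            have : w' = w := by simpa using he
            rwa [← this]
          · intro j
            obtain ⟨e5, e5'⟩ := e4 j
            have e7 := h1 j
            have e8 : f k j = k j - 1 := rfl
            rw [e8] at e5 e5'
            have e6 : k j - 1 - n' = k j - (n' + 1) := by omega
            rw [e6] at e5'
            exact ⟨by omega, e5'⟩
        · apply (finite_toSet (Icc 1 x)).subset
          intro n hn
          rw [Set.mem_setOf_eq] at hn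
          rw [mem_coe, mem_Icc]
          exact hn.1
  exact tendsto_of_tendsto_of_tendsto_of_le_of_le' tendsto_const_nhds (h κ)
    (Eventually.of_forall fun x => by positivity) hsq

end Pool.Agent.Results.MP_967f73_nt.CommonSummands
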