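import Pool.Agent.TH464.GB.Main

set_option autoImplicit false

/-!
# Binary Goldbach with an almost prime summand: the neighbourhoods of almost all the primes

For an even `N` call a prime `p < N` a Goldbach prime if `N - p` has at most `r` prime factors, all
larger than `N ^ (1 / r)`. Put `L (N) = log ^ 2 N / 𝔖 (N)`, where
`𝔖 (N) = ∏_{p ∣ N, p > 2} (p - 1) / (p - 2)`. Uniformly for all large even `N` and all
`N ^ θ ≤ X ≤ N / 4` there are at least `κ X / L (N)` Goldbach primes in `(X, 2 X]`, and for all but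
`ε X / L (N)` of them the Goldbach primes in ALL windows around `p` of length between `L (N) / c` and
`X` have the right order of magnitude, and up to `δ` constant density on both sides of `p` at all but
`B (ε, δ)` dyadic scales.
-/

namespace Pool.Agent.Results.MP_967f73_nt.GoldbachWindows

open Finset Filter

/-- `p < N` is prime and `N - p` has at most `r` prime factors (with multiplicity), all of them
larger than `N ^ (1 / r)`. -/
def GoldbachPrime (r N p : ℕ) : Prop :=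
  p.Prime ∧ p < N ∧ (N - p).primeFactorsList.length ≤ r ∧
    ∀ q : ℕ, q.Prime → q ∣ N - p → (N : ℝ) ^ (1 / (r : ℝ)) < (q : ℝ)

/-- The length scale `log ^ 2 N / ∏_{p ∣ N, p > 2} (p - 1) / (p - 2)`. -/
noncomputable def L (N : ℕ) : ℝ :=
  Real.log N ^ 2 / ∏ p ∈ N.primeFactors.filter (fun p => p ≠ 2), ((p : ℝ) - 1) / ((p : ℝ) - 2)

open Classical in
/-- The number of the Goldbach primes in `(a, b]`. -/
noncomputable def count (r N a b : ℕ) : ℕ :=
  ((Finset.Ioc a b).filter (fun p => GoldbachPrime r N p)).card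

/-- All windows around `p` of length at least `L (N) / c` have the right order. -/
def RightOrder (r : ℕ) (c : ℝ) (N X p : ℕ) : Prop :=
  ∀ s t : ℕ, s ≤ X → t ≤ X → L N ≤ c * (s + t) →
    c * (s + t) / L N ≤ count r N (p - s) (p + t) ∧
      (count r N (p - s) (p + t) : ℝ) ≤ (s + t) / (c * L N)

/-- Constant density, up to `δ`, on both sides of `p` up to the distance `2 ^ j`. -/
def ConstantDensity (r : ℕ) (c δ : ℝ) (N p j : ℕ) : Prop :=
  ∃ lam : ℝ, c ≤ lam ∧ lam ≤ 1 / c ∧ ∀ s t : ℕ, s ≤ 2 ^ j → t ≤ 2 ^ j →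
    |(count r N (p - s) (p + t) : ℝ) - lam * (s + t) / L N| ≤ δ * 2 ^ j / L N

open Classical in
/-- The number of the scales `L (N) ≤ 2 ^ j ≤ X` without this property. -/
noncomputable def badScales (r : ℕ) (c δ : ℝ) (N X p : ℕ) : ℕ :=
  ((Finset.range (Nat.log 2 X + 1)).filter (fun j => L N ≤ (2 : ℝ) ^ j ∧
    ¬ ConstantDensity r c δ N p j)).card

open Classical in
/-- **The neighbourhoods of almost all Goldbach primes.** -/
theorem result (θ : ℝ) (hθ : 0 < θ) (hθ1 : θ ≤ 1) :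
    ∃ r : ℕ, (∃ κ : ℝ, 0 < κ ∧ ∀ᶠ N : ℕ in atTop, 2 ∣ N → ∀ X : ℕ, (N : ℝ) ^ θ ≤ X → 4 * X ≤ N →
      κ * X / L N ≤ count r N X (2 * X)) ∧
    ∀ ε : ℝ, 0 < ε → ∃ c : ℝ, 0 < c ∧ ∀ δ : ℝ, 0 < δ → ∃ B : ℕ,
      ∀ᶠ N : ℕ in atTop, 2 ∣ N → ∀ X : ℕ, (N : ℝ) ^ θ ≤ X → 4 * X ≤ N →
        (((Finset.Ioc X (2 * X)).filter (fun p => GoldbachPrime r N p ∧
          ¬ (RightOrder r c N X p ∧ badScales r c δ N X p ≤ B))).card : ℝ) ≤ ε * X / L N :=
  Pool.Agent.TH464.GB.main_points θ hθ hθ1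

end Pool.Agent.Results.MP_967f73_nt.GoldbachWindows
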