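import Mathlib
import Pool.Agent.TH899.UG.SDD

/-!
# Sums and differences of two primes near any four numbers: a positive proportion of every window

Goldbach and de Polignac together, without exceptional set: for every large `s`, every `H` from a
constant up to `s / C` and any four integers, those with index in `Y` in `[s, 2 s]` and the others in
`[0, s]`, there are two of them, `c i` and `c j`, such that either both have the same kind and at least
`H / 110` of the integers within `H` of `c j - c i` are differences of two primes, or they have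
different kinds and at least `H / 110` of the integers within `H` of `c i + c j` are sums of two primes,
each for at least `s ^ (1 - η)` primes `p ≤ 3 s`.

Proof: two of any four classes of linear forms are hit by primes, uniformly in the constant terms of the
forms; Erdos's theorem on 4-partite hypergraphs; an average over the translations
(`Pool.Agent.TH899.UG.DN.dens`).
-/

set_option autoImplicit false

namespace Pool.Agent.Results.MP_967f73_nt.SumsAndDifferencesDensity

open Finset Filter

/-- for at least `z` primes `p ≤ B` there is a prime `q` with `p + q = t` -/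
def Sums (B : ℕ) (z : ℝ) (t : ℤ) : Prop :=
  z ≤ ({p : ℕ | p ≤ B ∧ p.Prime ∧ ∃ q : ℕ, q.Prime ∧ (p : ℤ) + q = t}.ncard : ℝ)

/-- for at least `z` primes `p ≤ B` there is a prime `q` with `q - p = t` -/
def Diffs (B : ℕ) (z : ℝ) (t : ℤ) : Prop :=
  z ≤ ({p : ℕ | p ≤ B ∧ p.Prime ∧ ∃ q : ℕ, q.Prime ∧ (q : ℤ) - p = t}.ncard : ℝ)

open Classical in
theorem result : ∃ C : ℕ, ∀ η : ℝ, 0 < η → ∀ᶠ s : ℕ in atTop, ∀ H : ℕ, C ≤ H → C * H ≤ s →
    ∀ (c : Fin 4 → ℕ) (Y : Finset (Fin 4)), (∀ i, i ∉ Y → c i ≤ s) →
      (∀ i ∈ Y, s ≤ c i ∧ c i ≤ 2 * s) →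
    ∃ i j : Fin 4, i ≠ j ∧
      ((i ∈ Y ↔ j ∈ Y) ∧ (H : ℝ) / 110 ≤ (((Icc ((c j : ℤ) - c i - H) (c j - c i + H)).filter
          (Diffs (3 * s) ((s : ℝ) ^ (1 - η)))).card : ℝ) ∨
       (i ∉ Y ∧ j ∈ Y) ∧ (H : ℝ) / 110 ≤ (((Icc ((c i : ℤ) + c j - H) (c i + c j + H)).filter
          (Sums (3 * s) ((s : ℝ) ^ (1 - η)))).card : ℝ)) :=
  Pool.Agent.TH899.UG.SDD.sdd

end Pool.Agent.Results.MP_967f73_nt.SumsAndDifferencesDensity
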